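import Pool.Agent.H43.DHMain

set_option autoImplicit false

namespace Pool.Agent.Results.MP_132c94_pr.Integer

open MeasureTheory Filter Topology Asymptotics

/-- Derrida-Hilhorst, integer exponent `α = n`.  `μ` is the law of `Z`, `ν ε` the law of `X_ε`,
and `𝓛 ε = E log (1 + ε² X_ε)` is the Lyapunov exponent. -/
theorem result (n : ℕ) (hn : 1 ≤ n) (μ : Measure ℝ) [IsProbabilityMeasure μ]
    (hpos : ∀ᵐ z ∂μ, 0 < z) (hnc : ∀ c : ℝ, ¬ ∀ᵐ z ∂μ, z = c)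
    (hint : Integrable (fun z => z ^ n) μ) (hone : ∫ z, z ^ n ∂μ = 1)
    (ν : ℝ → Measure ℝ) (hν : ∀ ε : ℝ, 0 < ε → ε < 1 → IsProbabilityMeasure (ν ε) ∧
      (∀ᵐ x ∂(ν ε), 0 ≤ x) ∧
      (μ.prod (ν ε)).map (fun p : ℝ × ℝ => p.1 * (1 + p.2) / (1 + ε ^ 2 * p.2)) = ν ε)
    (𝓛 : ℝ → ℝ) (h𝓛 : ∀ ε, 𝓛 ε = ∫ x, Real.log (1 + ε ^ 2 * x) ∂(ν ε)) :
    ∃ (ℓ : ℕ → ℝ) (C : ℝ), 0 ≤ C ∧ (0 < C ↔ Integrable (fun z => z ^ n * Real.log z) μ) ∧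
      (fun ε => 𝓛 ε - (∑ k ∈ Finset.Icc 1 (n - 1), (-1) ^ (k + 1) * ℓ k * ε ^ (2 * k) +
        (-1) ^ (n - 1) * C * ε ^ (2 * n) * Real.log (1 / ε))) =o[𝓝[>] 0]
          fun ε => ε ^ (2 * n) * Real.log (1 / ε) := by
  obtain ⟨p, C, h0, h1, h2⟩ := Pool.Agent.H43.DH.main (ν := ν) ⟨hn, hpos, hnc, hint, hone⟩ (by
    filter_upwards [Ioo_mem_nhdsGT (zero_lt_one (α := ℝ))] with ε ⟨h1, h2⟩
    obtain ⟨h3, h4, h5⟩ := hν ε h1 h2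
    exact ⟨h3, by positivity, by nlinarith, h4, h5⟩)
  refine ⟨fun k => (-1) ^ (k + 1) * p (k - 1), C, h0, h1, h2.congr (fun ε => ?_)
    fun ε => by rw [pow_mul]⟩
  have h3 : ∑ k ∈ Finset.Icc 1 (n - 1), (-1) ^ (k + 1) * ((-1) ^ (k + 1) * p (k - 1)) * ε ^ (2 * k) =
      ∑ i ∈ Finset.range (n - 1), p i * (ε ^ 2) ^ (i + 1) := by
    rw [Finset.range_eq_Ico]
    refine (Finset.sum_congr rfl fun k _ => ?_).trans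
      (Finset.sum_Ico_add' (fun k => p (k - 1) * (ε ^ 2) ^ k) 0 (n - 1) 1).symm
    rw [← mul_assoc, ← mul_pow, pow_mul]; simp
  rw [h𝓛, h3, pow_mul]; ring

end Pool.Agent.Results.MP_132c94_pr.Integer
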